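import Mathlib

namespace Pool.Agent.Results.MP_aa7c57_an.Five

open Finset Filter

lemma ratios (C : ℕ → ℝ) (hC : ∀ n, 0 < C n) (hper : ∀ n, C (n + 5) = C n)
    (hA : ∀ i, 1 < C (i + 4) + 1 / C (i + 1))
    (hB : ∀ i, (1 - 1 / C (i + 1)) / C (i + 4) + C (i + 2) * (1 - C i) < 1) :
    ∃ r : ℕ → ℝ, (∀ n, r (n + 5) = r n) ∧ r 0 * r 1 * r 2 * r 3 * r 4 = 1 ∧ ∀ n, 0 < r n ∧
      0 < C (n + 4) + (1 / C (n + 1) - 1) * (C (n + 2) * r n + 1) ∧
      0 < (C n - 1) * (C (n + 2) * r n + 1) + r n := by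
  have c5 : C 5 = C 0 := hper 0
  have c6 : C 6 = C 1 := hper 1
  have c7 : C 7 = C 2 := hper 2
  have c8 : C 8 = C 3 := hper 3
  have per' : ∀ t n, C (n + 5 + t) = C (n + t) := fun t n => by
    rw [show n + 5 + t = n + t + 5 by ring, hper]
  by_cases h1 : ∀ n, 1 < C n
  · refine ⟨fun n => C (n + 1) * (C (n + 4) - 1) / ((C (n + 1) - 1) * C (n + 2)),
      fun n => by simp only [per'], ?_, fun n => ?_⟩
    · simp only [zero_add, Nat.reduceAdd, c5, c6, c7, c8]
      have := (sub_pos.2 (h1 0)).ne'; have := (sub_pos.2 (h1 1)).ne'; have := (sub_pos.2 (h1 2)).ne'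
      have := (sub_pos.2 (h1 3)).ne'; have := (sub_pos.2 (h1 4)).ne'
      have := (hC 0).ne'; have := (hC 1).ne'; have := (hC 2).ne'; have := (hC 3).ne'
      have := (hC 4).ne'
      field_simp
    · have a0 := sub_pos.2 (h1 n); have a1 := sub_pos.2 (h1 (n + 1))
      have a4 := sub_pos.2 (h1 (n + 4)); have b1 := hC (n + 1); have b2 := hC (n + 2)
      refine ⟨by positivity, ?_, by positivity⟩
      have : C (n + 4) + (1 / C (n + 1) - 1) * (C (n + 2) * (C (n + 1) * (C (n + 4) - 1) /
        ((C (n + 1) - 1) * C (n + 2))) + 1) = 1 / C (n + 1) := by field_simp; ring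
      rw [this]; positivity
  by_cases h2 : ∀ n, C n < 1
  · refine ⟨fun n => (1 - C n) / (1 - C (n + 2)), fun n => by simp only [per', hper], ?_, fun n => ?_⟩
    · simp only [zero_add, Nat.reduceAdd, c5, c6]
      have := (sub_pos.2 (h2 0)).ne'; have := (sub_pos.2 (h2 1)).ne'; have := (sub_pos.2 (h2 2)).ne'
      have := (sub_pos.2 (h2 3)).ne'; have := (sub_pos.2 (h2 4)).ne'
      field_simp
    · have a0 := sub_pos.2 (h2 n); have a2 := sub_pos.2 (h2 (n + 2))
      have b0 := hC n; have b2 := hC (n + 2); have b4 := hC (n + 4)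
      have a1 : 0 < 1 / C (n + 1) - 1 := sub_pos.2 (one_lt_one_div (hC _) (h2 _))
      refine ⟨by positivity, by positivity, ?_⟩
      have : (C n - 1) * (C (n + 2) * ((1 - C n) / (1 - C (n + 2))) + 1) + (1 - C n) / (1 - C (n + 2))
        = (1 - C n) * (C n * C (n + 2)) / (1 - C (n + 2)) := by field_simp; ring
      rw [this]; positivity
  push Not at h1 h2
  obtain ⟨p, hp⟩ := h1
  obtain ⟨q, hq⟩ := h2
  have hA' : ∀ n, 0 < (C n - 1) * C (n + 2) + 1 := fun n => by
    have := hA (n + 1)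
    rw [show n + 1 + 4 = n + 5 by ring, hper, show n + 1 + 1 = n + 2 by ring] at this
    have e : 1 / C (n + 2) * C (n + 2) = 1 := by have := (hC (n + 2)).ne'; field_simp
    nlinarith [mul_pos (sub_pos.2 this) (hC (n + 2))]
  have ex : ∀ n, ∃ r, 0 < r ∧ 0 < C (n + 4) + (1 / C (n + 1) - 1) * (C (n + 2) * r + 1) ∧
      0 < (C n - 1) * (C (n + 2) * r + 1) + r := by
    intro n
    have b2 := hC (n + 2); have b4 := hC (n + 4)
    obtain ⟨θ, t1, t2⟩ := exists_between (show max 0 ((1 - 1 / C (n + 1)) / C (n + 4))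
        < min 1 (1 - C (n + 2) * (1 - C n)) by
      refine max_lt (lt_min one_pos (by nlinarith [hA' n])) (lt_min ?_ (by linarith [hB n]))
      rw [div_lt_one b4]; linarith [hA n])
    obtain ⟨t0, t1⟩ := max_lt_iff.1 t1
    obtain ⟨t2, t3⟩ := lt_min_iff.1 t2
    rw [div_lt_iff₀ b4] at t1
    have e : C (n + 2) * ((1 - θ) / (θ * C (n + 2))) + 1 = 1 / θ := by field_simp; ring
    have := sub_pos.2 t2
    refine ⟨(1 - θ) / (θ * C (n + 2)), by positivity, ?_, ?_⟩
    · rw [e]
      have : C (n + 4) + (1 / C (n + 1) - 1) * (1 / θ) = (θ * C (n + 4) - (1 - 1 / C (n + 1))) / θ := by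
        field_simp; ring
      rw [this]; exact div_pos (by linarith) t0
    · rw [e]
      have : (C n - 1) * (1 / θ) + (1 - θ) / (θ * C (n + 2))
        = (1 - C (n + 2) * (1 - C n) - θ) / (θ * C (n + 2)) := by field_simp; ring
      rw [this]; exact div_pos (by linarith) (by positivity)
  choose r0 hr0 using ex
  have hCp : Function.Periodic C 5 := hper
  have md : ∀ n t, C (n % 5 + t) = C (n + t) := fun n t => by
    rw [← hCp.map_mod_nat (n % 5 + t), ← hCp.map_mod_nat (n + t)]; congr 1; omega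
  set P := r0 0 * r0 1 * r0 2 * r0 3 * r0 4 with hP
  have hP0 : 0 < P := by
    have := (hr0 0).1; have := (hr0 1).1; have := (hr0 2).1; have := (hr0 3).1; have := (hr0 4).1
    positivity
  have fin : ∀ m : ℕ, m < 5 → (∀ n, n % 5 = m → 0 < C (n + 4) + (1 / C (n + 1) - 1) *
        (C (n + 2) * (r0 m / P) + 1) ∧ 0 < (C n - 1) * (C (n + 2) * (r0 m / P) + 1) + r0 m / P) →
      ∃ r : ℕ → ℝ, (∀ n, r (n + 5) = r n) ∧ r 0 * r 1 * r 2 * r 3 * r 4 = 1 ∧ ∀ n, 0 < r n ∧
      0 < C (n + 4) + (1 / C (n + 1) - 1) * (C (n + 2) * r n + 1) ∧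
      0 < (C n - 1) * (C (n + 2) * r n + 1) + r n := by
    intro m hm h
    refine ⟨fun n => if n % 5 = m then r0 m / P else r0 (n % 5), fun n => by simp, ?_, fun n => ?_⟩
    · have := hP0.ne'
      interval_cases m <;> norm_num <;> field_simp <;> rw [hP]
    · by_cases hn : n % 5 = m
      · simp only [hn, if_true]; exact ⟨div_pos (hr0 m).1 hP0, h n hn⟩
      · simp only [hn, if_false]
        have := hr0 (n % 5)
        rw [md, md, md, hCp.map_mod_nat] at this
        exact this
  by_cases hP1 : P ≤ 1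
  · refine fin ((p + 4) % 5) (Nat.mod_lt _ (by norm_num)) fun n hn => ?_
    have := hr0 (n % 5)
    rw [md, md, md, hCp.map_mod_nat, hn] at this
    obtain ⟨g0, g1, g2⟩ := this
    have hge : r0 ((p + 4) % 5) ≤ r0 ((p + 4) % 5) / P := le_div_self g0.le hP0 hP1
    have hc1 : C (n + 1) ≤ 1 := by
      rw [← hCp.map_mod_nat (n + 1), show (n + 1) % 5 = p % 5 by omega, hCp.map_mod_nat]; exact hp
    have a1 : 0 ≤ 1 / C (n + 1) - 1 := sub_nonneg.2 (one_le_one_div (hC _) hc1)
    constructor
    · nlinarith [mul_le_mul_of_nonneg_left hge (mul_nonneg a1 (hC (n + 2)).le)]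
    · nlinarith [mul_le_mul_of_nonneg_left hge (hA' n).le]
  · push Not at hP1
    refine fin (q % 5) (Nat.mod_lt _ (by norm_num)) fun n hn => ?_
    have := hr0 (n % 5)
    rw [md, md, md, hCp.map_mod_nat, hn] at this
    obtain ⟨g0, g1, g2⟩ := this
    have hle : r0 (q % 5) / P ≤ r0 (q % 5) := div_le_self g0.le hP1.le
    have h0 : 0 < r0 (q % 5) / P := div_pos g0 hP0
    have hc1 : 0 ≤ C n - 1 := by
      rw [← hCp.map_mod_nat n, hn, hCp.map_mod_nat]; linarith
    have b2 := hC (n + 2)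
    refine ⟨?_, by positivity⟩
    by_cases a1 : 0 ≤ 1 / C (n + 1) - 1
    · have := hC (n + 4); positivity
    · push Not at a1
      nlinarith [mul_le_mul_of_nonneg_left hle (mul_pos (neg_pos.2 a1) b2).le]

lemma ev (c d μ w : ℝ) (hc : 0 < c) (hd : 0 < d) (hμ : 0 < μ) (hw : 0 < w) :
    ∀ᶠ N in atTop, (1 / c - μ) * (c * (N * w) + d) ≤ N * w := by
  filter_upwards [eventually_ge_atTop (d / (c * (μ * c * w)))] with N hN
  rw [div_le_iff₀ (by positivity)] at hN
  have e : (1 / c - μ) * (c * (N * w) + d) = N * w + (d - N * (c * (μ * c * w))) / c - μ * d := by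
    field_simp; ring
  have : (d - N * (c * (μ * c * w))) / c ≤ 0 := div_nonpos_of_nonpos_of_nonneg (by linarith) hc.le
  rw [e]; nlinarith [mul_pos hμ hd]

lemma bdd (C : ℕ → ℝ) (hC : ∀ n, 0 < C n) (hper : ∀ n, C (n + 5) = C n)
    (hA : ∀ i, 1 < C (i + 4) + 1 / C (i + 1))
    (hB : ∀ i, (1 - 1 / C (i + 1)) / C (i + 4) + C (i + 2) * (1 - C i) < 1)
    (y : ℕ → ℝ) (hp : ∀ n, 0 < y n) (e : ∀ n, y (n + 3) * (C n * y (n + 1) + y n) = 1) :
    BddAbove (Set.range y) := by
  obtain ⟨r, rper, rprod, hr⟩ := ratios C hC hper hA hB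
  set W : ℕ → ℝ := fun j => ∏ i ∈ range j, r i with hW
  have W0 : ∀ j, 0 < W j := fun j => prod_pos fun i _ => (hr i).1
  have W1 : ∀ j, W (j + 1) = W j * r j := fun j => prod_range_succ _ _
  have Wper : ∀ j, W (j + 5) = W j := by
    intro j
    induction j with
    | zero => simp only [hW, zero_add, prod_range_succ, range_zero, prod_empty, one_mul]; exact rprod
    | succ j ih => rw [show j + 1 + 5 = j + 5 + 1 by ring, W1 (j + 5), W1 j, ih, rper]
  have per' : ∀ (f : ℕ → ℝ), (∀ n, f (n + 5) = f n) → ∀ t n, f (n + 5 + t) = f (n + t) :=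
    fun f hf t n => by rw [show n + 5 + t = n + t + 5 by ring, hf]
  let Q : ℝ → ℕ → Prop := fun N n =>
    (1 - C n / (C (n + 3) * r (n + 1) + 1)) * (C (n + 2) * (N * W (n + 1)) + 1) ≤ N * W (n + 1) ∧
    (1 - r n / (C (n + 2) * r n + 1)) * (N * W (n + 1) + C (n + 3) / C (n + 1)) ≤ C n * (N * W (n + 1))
  have hQ : ∀ n, ∀ᶠ N in atTop, Q N n := by
    intro n
    obtain ⟨r0, -, g2⟩ := hr n
    obtain ⟨r1, g1, -⟩ := hr (n + 1)
    rw [show n + 1 + 4 = n + 5 by ring, hper] at g1
    simp only [add_assoc, Nat.reduceAdd] at g1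
    have b0 := hC n; have b1 := hC (n + 1); have b2 := hC (n + 2); have b3 := hC (n + 3)
    have s1 : 0 < C (n + 3) * r (n + 1) + 1 := by positivity
    have s0 : 0 < C (n + 2) * r n + 1 := by positivity
    have m1 : 0 < 1 / C (n + 2) - (1 - C n / (C (n + 3) * r (n + 1) + 1)) := by
      have := div_pos g1 s1
      rw [add_div, mul_div_assoc, div_self s1.ne'] at this; linarith
    have m2 : 0 < C n - (1 - r n / (C (n + 2) * r n + 1)) := by
      have := div_pos g2 s0
      rw [add_div, mul_div_assoc, div_self s0.ne'] at this; linarith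
    filter_upwards [ev (C (n + 2)) 1 _ (W (n + 1)) b2 one_pos m1 (W0 _),
      ev 1 (C (n + 3) / C (n + 1)) _ (W (n + 1)) one_pos (by positivity) (div_pos m2 b0) (W0 _)]
      with N h1 h2
    refine ⟨by simpa using h1, ?_⟩
    have h3 := mul_le_mul_of_nonneg_left h2 b0.le
    have e3 : C n * (1 / 1 - (C n - (1 - r n / (C (n + 2) * r n + 1))) / C n)
      = 1 - r n / (C (n + 2) * r n + 1) := by field_simp; ring
    rw [← mul_assoc, e3, one_mul] at h3
    exact h3
  have hI : ∀ j, ∀ᶠ N in atTop, y (j + 2) ≤ N * W j := fun j => by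
    filter_upwards [eventually_ge_atTop (y (j + 2) / W j)] with N hN
    exact (div_le_iff₀ (W0 j)).1 hN
  obtain ⟨N, ⟨hN1, hN2⟩, hN0⟩ := ((((eventually_all_finset (range 5)).2 fun n _ => hQ n).and
    ((eventually_all_finset (range 6)).2 fun n _ => hI n)).and (eventually_gt_atTop 0)).exists
  have Qp : Function.Periodic (Q N) 5 := fun n => by
    simp only [Q, per' C hper, per' r rper, per' W Wper, hper, rper]
  have hQn : ∀ n, Q N n := fun n => by
    rw [← Qp.map_mod_nat]; exact hN1 _ (mem_range.2 (Nat.mod_lt _ (by norm_num)))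
  have main : ∀ j, y (j + 2) ≤ N * W j := by
    intro j
    induction j using Nat.strong_induction_on with
    | _ j ih =>
      by_cases hj : j < 6
      · exact hN2 j (mem_range.2 hj)
      obtain ⟨n, rfl⟩ : ∃ n, j = n + 6 := ⟨j - 6, by omega⟩
      have hz := ih n (by omega)
      have ha := ih (n + 1) (by omega)
      have hb := ih (n + 2) (by omega)
      obtain ⟨q1, q2⟩ := hQn n
      have e0 := e (n + 1)
      have e1 := e (n + 2)
      have e2 := e (n + 3)
      have e4 := e (n + 5)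
      rw [hper] at e4
      rw [show n + 6 = n + 1 + 5 by ring, Wper]
      rw [W1 (n + 1)] at hb
      simp only [add_assoc, Nat.reduceAdd] at e0 e1 e2 e4 ha hb ⊢
      have b0 := hC n; have b1 := hC (n + 1); have b2 := hC (n + 2); have b3 := hC (n + 3)
      have r0 := (hr n).1; have r1 := (hr (n + 1)).1
      have pz := hp (n + 2); have pa := hp (n + 3); have pb := hp (n + 4); have pe := hp (n + 5)
      have pf := hp (n + 6); have pa' := hp (n + 8)
      set X := N * W (n + 1) with hX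
      have hX0 : 0 < X := mul_pos hN0 (W0 _)
      suffices h : 1 ≤ X * (C n * y (n + 6) + y (n + 5)) by
        nlinarith [mul_le_mul_of_nonneg_left h pa'.le]
      by_cases h1 : y (n + 2) ≤ 1
      · have u1 : C (n + 2) * y (n + 3) + y (n + 2) ≤ C (n + 2) * X + 1 := by nlinarith
        have u2 : 1 ≤ y (n + 5) * (C (n + 2) * X + 1) := by
          nlinarith [mul_le_mul_of_nonneg_left u1 pe.le]
        have hb' : y (n + 4) ≤ X * r (n + 1) := by rw [hX]; linarith
        have u3 : C (n + 3) * y (n + 4) + y (n + 3) ≤ X * (C (n + 3) * r (n + 1) + 1) := by nlinarith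
        have u4 : 1 / (C (n + 3) * r (n + 1) + 1) ≤ y (n + 6) * X := by
          rw [div_le_iff₀ (by positivity)]; nlinarith [mul_le_mul_of_nonneg_left u3 pf.le]
        have u5 : 1 - C n / (C (n + 3) * r (n + 1) + 1) ≤ X * y (n + 5) := by
          refine le_of_mul_le_mul_right (q1.trans ?_) (by positivity : 0 < C (n + 2) * X + 1)
          nlinarith [mul_le_mul_of_nonneg_left u2 hX0.le]
        have u6 := mul_le_mul_of_nonneg_left u4 b0.le
        rw [mul_one_div] at u6
        nlinarith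
      · push Not at h1
        have v1 : y (n + 4) ≤ 1 / C (n + 1) := by
          rw [le_div_iff₀ b1]
          nlinarith [mul_pos pb (hp (n + 1)), mul_le_mul_of_nonneg_left h1.le (mul_pos pb b1).le]
        have v2 : C (n + 3) * y (n + 4) + y (n + 3) ≤ X + C (n + 3) / C (n + 1) := by
          have := mul_le_mul_of_nonneg_left v1 b3.le
          rw [mul_one_div] at this; linarith
        have v3 : 1 ≤ y (n + 6) * (X + C (n + 3) / C (n + 1)) := by
          nlinarith [mul_le_mul_of_nonneg_left v2 pf.le]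
        have v4 : 1 - r n / (C (n + 2) * r n + 1) ≤ C n * X * y (n + 6) := by
          refine le_of_mul_le_mul_right (q2.trans ?_) (by positivity : 0 < X + C (n + 3) / C (n + 1))
          nlinarith [mul_le_mul_of_nonneg_left v3 (mul_pos b0 hX0).le]
        have hz' : y (n + 2) * r n ≤ X := by
          rw [hX, W1]; nlinarith [mul_le_mul_of_nonneg_right hz r0.le]
        have v5 : (C (n + 2) * y (n + 3) + y (n + 2)) * r n ≤ X * (C (n + 2) * r n + 1) := by
          nlinarith [mul_le_mul_of_nonneg_right ha (mul_pos b2 r0).le]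
        have v6 : r n / (C (n + 2) * r n + 1) ≤ y (n + 5) * X := by
          rw [div_le_iff₀ (by positivity)]
          have := mul_le_mul_of_nonneg_left v5 pe.le
          rw [← mul_assoc, e1] at this; linarith
        nlinarith
  have Wp : Function.Periodic W 5 := Wper
  refine ⟨y 0 + y 1 + N * ∑ j ∈ range 5, W j, ?_⟩
  have hS : ∀ j, N * W j ≤ N * ∑ j ∈ range 5, W j := fun j => by
    refine mul_le_mul_of_nonneg_left ?_ hN0.le
    rw [← Wp.map_mod_nat j]
    exact single_le_sum (f := W) (fun i _ => (W0 i).le) (mem_range.2 (Nat.mod_lt _ (by norm_num)))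
  have := (mul_pos hN0 (W0 0)).trans_le (hS 0)
  have := hp 0
  have := hp 1
  rintro _ ⟨n, rfl⟩
  rcases n with _ | _ | n
  · linarith
  · simp only [zero_add]; linarith
  · linarith [main n, hS n]

lemma unb (C : ℕ → ℝ) (hC : ∀ n, 0 < C n) (hper : ∀ n, C (n + 5) = C n)
    (y : ℕ → ℝ) (hp : ∀ n, 0 < y n) (e : ∀ n, y (n + 3) * (C n * y (n + 1) + y n) = 1)
    (M : ℝ) (hM : ∀ n, y n ≤ M) (i : ℕ) (θ : ℝ) (t0 : 0 < θ) (t1 : θ ≤ 1)
    (h1 : C (i + 4) * θ + 1 / C (i + 1) ≤ 1) (h2 : θ = 1 ∨ C i * C (i + 2) + (1 - θ) ≤ C (i + 2)) :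
    False := by
  have hCp : Function.Periodic C 5 := hper
  set G := ∑ j ∈ range 5, C j with hG
  have hGn : ∀ n, C n ≤ G := fun n => by
    rw [← hCp.map_mod_nat n]
    exact single_le_sum (f := C) (fun i _ => (hC i).le) (mem_range.2 (Nat.mod_lt _ (by norm_num)))
  have hG0 : 0 < G := (hC 0).trans_le (hGn 0)
  have hM0 : 0 < M := (hp 0).trans_le (hM 0)
  set η := 1 / ((G + 1) * M * M) with hη
  have hη0 : 0 < η := by positivity
  have hη1 : η * ((G + 1) * M * M) = 1 := by rw [hη]; field_simp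
  have key : ∀ n m, η * y m ≤ y (n + 3) := by
    intro n m
    have a1 : C n * y (n + 1) + y n ≤ (G + 1) * M := by
      nlinarith [mul_le_mul (hGn n) (hM (n + 1)) (hp _).le hG0.le, hM n]
    have a2 : 1 ≤ y (n + 3) * ((G + 1) * M) := by
      nlinarith [mul_le_mul_of_nonneg_left a1 (hp (n + 3)).le, e n]
    have a3 := mul_le_mul_of_nonneg_left (hM m) hη0.le
    have a4 := mul_le_mul_of_nonneg_left a2 (mul_pos hη0 hM0).le
    have a5 : η * M * (y (n + 3) * ((G + 1) * M)) = y (n + 3) := by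
      linear_combination y (n + 3) * hη1
    linarith
  have b0 := hC i; have b1 := hC (i + 1); have b2 := hC (i + 2); have b3 := hC (i + 3)
  have b4 := hC (i + 4)
  have k1 : 1 / (C (i + 1) + η) < 1 / C (i + 1) := one_div_lt_one_div_of_lt b1 (by linarith)
  have k2 : 1 / (1 + η * C (i + 3)) < 1 := by
    rw [div_lt_one (by positivity)]; linarith [mul_pos hη0 b3]
  obtain ⟨u, u0, u1, u2, u3⟩ : ∃ u : ℝ, 0 < u ∧ u < 1 ∧ C (i + 4) * θ + 1 / (C (i + 1) + η) ≤ u ∧
      (θ = 1 ∨ C i * C (i + 2) * (1 / (1 + η * C (i + 3))) + (1 - θ) ≤ u * C (i + 2)) := by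
    rcases h2 with h2 | h2
    · exact ⟨_, by positivity, by linarith, le_rfl, Or.inl h2⟩
    · refine ⟨max (C (i + 4) * θ + 1 / (C (i + 1) + η))
        ((C i * C (i + 2) * (1 / (1 + η * C (i + 3))) + (1 - θ)) / C (i + 2)),
        lt_max_of_lt_left (by positivity), max_lt (by linarith) ?_, le_max_left _ _, Or.inr ?_⟩
      · rw [div_lt_one b2]; nlinarith [mul_lt_mul_of_pos_left k2 (mul_pos b0 b2)]
      · exact (div_le_iff₀ b2).1 (le_max_right _ _)
  have cc : ∀ m t, C (i + 5 * m + t) = C (i + t) := fun m t => by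
    rw [← hCp.map_mod_nat (i + 5 * m + t), ← hCp.map_mod_nat (i + t)]; congr 1; omega
  set l0 := min (y (i + 7)) (C (i + 2) * y (i + 8)) with hl0
  have l00 : 0 < l0 := lt_min (hp _) (mul_pos b2 (hp _))
  have main : ∀ m, l0 / u ^ m * θ ≤ y (i + 5 * m + 7) ∧
      l0 / u ^ m * (1 - θ) ≤ C (i + 2) * y (i + 5 * m + 8) := by
    intro m
    induction m with
    | zero =>
      have m1 : l0 ≤ y (i + 7) := min_le_left _ _
      have m2 : l0 ≤ C (i + 2) * y (i + 8) := min_le_right _ _
      simp only [pow_zero, div_one, mul_zero, add_zero]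
      constructor <;> nlinarith
    | succ m ih =>
      obtain ⟨ia, ib⟩ := ih
      have hl : 0 < l0 / u ^ m := by positivity
      rw [pow_succ, ← div_div]
      generalize l0 / u ^ m = L at ia ib hl
      have e1 := e (i + 5 * m + 6)
      have e2 := e (i + 5 * m + 7)
      have e3 := e (i + 5 * m + 8)
      have e4 := e (i + 5 * m + 9)
      have e5 := e (i + 5 * m + 10)
      have kz := key (i + 5 * m + 3) (i + 5 * m + 7)
      have ke := key (i + 5 * m + 6) (i + 5 * m + 8)
      rw [cc, show i + 6 = i + 1 + 5 by ring, hper] at e1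
      rw [cc, show i + 7 = i + 2 + 5 by ring, hper] at e2
      rw [cc, show i + 8 = i + 3 + 5 by ring, hper] at e3
      rw [cc, show i + 9 = i + 4 + 5 by ring, hper] at e4
      rw [cc, show i + 10 = i + 5 + 5 by ring, hper, hper] at e5
      rw [show i + 5 * (m + 1) + 7 = i + 5 * m + 12 by ring,
        show i + 5 * (m + 1) + 8 = i + 5 * m + 13 by ring]
      generalize i + 5 * m = n at *
      simp only [add_assoc, Nat.reduceAdd] at e1 e2 e3 e4 e5 kz ke
      have pa := hp (n + 7); have pb := hp (n + 8); have pe := hp (n + 9); have pf := hp (n + 10)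
      have pg := hp (n + 11); have pa' := hp (n + 12); have pb' := hp (n + 13)
      have f1 : L * y (n + 10) ≤ 1 := by
        have : L ≤ C (i + 2) * y (n + 8) + y (n + 7) := by linarith
        nlinarith [mul_le_mul_of_nonneg_left this pf.le]
      have f2 : y (n + 7) * y (n + 9) ≤ 1 / (C (i + 1) + η) := by
        rw [le_div_iff₀ (by positivity)]; nlinarith [mul_le_mul_of_nonneg_left kz pe.le]
      have f3 : y (n + 8) * y (n + 11) ≤ 1 / (1 + η * C (i + 3)) := by
        rw [le_div_iff₀ (by positivity)]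
        nlinarith [mul_le_mul_of_nonneg_left ke (mul_pos pg b3).le]
      constructor
      · have g1 : L * θ * (C (i + 4) * y (n + 10) + y (n + 9)) ≤ u := by
          nlinarith [mul_le_mul_of_nonneg_left f1 (mul_pos b4 t0).le,
            mul_le_mul_of_nonneg_right ia pe.le]
        rw [div_mul_eq_mul_div, div_le_iff₀ u0]
        have := mul_le_mul_of_nonneg_left g1 pa'.le
        have q : y (n + 12) * (L * θ * (C (i + 4) * y (n + 10) + y (n + 9))) = L * θ := by
          linear_combination L * θ * e4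
        linarith
      · rcases u3 with u3 | u3
        · rw [u3, sub_self, mul_zero]; positivity
        have g1 : L * (1 - θ) * (C i * y (n + 11) + y (n + 10)) ≤ u * C (i + 2) := by
          nlinarith [mul_le_mul_of_nonneg_left f1 (sub_nonneg.2 t1),
            mul_le_mul_of_nonneg_right ib (mul_pos b0 pg).le,
            mul_le_mul_of_nonneg_left f3 (mul_pos b0 b2).le]
        rw [div_mul_eq_mul_div, div_le_iff₀ u0]
        have := mul_le_mul_of_nonneg_left g1 pb'.le
        have q : y (n + 13) * (L * (1 - θ) * (C i * y (n + 11) + y (n + 10))) = L * (1 - θ) := by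
          linear_combination L * (1 - θ) * e5
        linarith
  obtain ⟨m, hm⟩ := exists_pow_lt_of_lt_one (div_pos (mul_pos l00 t0) hM0) u1
  have h := (main m).1.trans (hM _)
  rw [div_mul_eq_mul_div, div_le_iff₀ (pow_pos u0 m)] at h
  rw [lt_div_iff₀ hM0] at hm
  linarith

/-- Period five, positive coefficients.  Here `y n` stands for `x_{n-2}`, so that
`x_{n+1} = 1 / (C_n x_{n-1} + x_{n-2})` reads `y (n+3) = 1 / (C n * y (n+1) + y n)`. -/
theorem result (C : ℕ → ℝ) (hC : ∀ n, 0 < C n) (hper : ∀ n, C (n + 5) = C n)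
    (y : ℕ → ℝ) (h0 : 0 < y 0) (h1 : 0 < y 1) (h2 : 0 < y 2)
    (hy : ∀ n, y (n + 3) = 1 / (C n * y (n + 1) + y n)) :
    BddAbove (Set.range y) ↔ ∀ i, 1 < C (i + 4) + 1 / C (i + 1) ∧
      (1 - 1 / C (i + 1)) / C (i + 4) + C (i + 2) * (1 - C i) < 1 := by
  have hp : ∀ n, 0 < y n := by
    intro n
    induction n using Nat.strong_induction_on with
    | _ n ih =>
      rcases n with _ | _ | _ | n
      · exact h0
      · exact h1
      · exact h2
      · have := ih n (by omega); have := ih (n + 1) (by omega); have := hC n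
        rw [hy]; positivity
  have e : ∀ n, y (n + 3) * (C n * y (n + 1) + y n) = 1 := by
    intro n; have := hp n; have := hp (n + 1); have := hC n; rw [hy]; field_simp
  refine ⟨?_, fun h => bdd C hC hper (fun i => (h i).1) (fun i => (h i).2) y hp e⟩
  rintro ⟨M, hM⟩
  have hM' : ∀ n, y n ≤ M := fun n => hM ⟨n, rfl⟩
  have hA : ∀ i, 1 < C (i + 4) + 1 / C (i + 1) := fun i => by
    by_contra h
    exact unb C hC hper y hp e M hM' i 1 one_pos le_rfl (by linarith) (Or.inl rfl)
  refine fun i => ⟨hA i, ?_⟩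
  by_contra h
  push Not at h
  have b2 := hC (i + 2)
  have b4 := hC (i + 4)
  have a1 := hA (i + 1)
  rw [show i + 1 + 4 = i + 5 by ring, hper, show i + 1 + 1 = i + 2 by ring] at a1
  have e2 : 1 / C (i + 2) * C (i + 2) = 1 := by field_simp
  refine unb C hC hper y hp e M hM' i ((1 - 1 / C (i + 1)) / C (i + 4)) ?_ ?_ ?_ (Or.inr ?_)
  · nlinarith [mul_pos (sub_pos.2 a1) b2]
  · rw [div_le_one b4]; linarith [hA i]
  · rw [mul_div_cancel₀ _ b4.ne']; linarith
  · linarith

end Pool.Agent.Results.MP_aa7c57_an.Five
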