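import Mathlib

namespace Pool.Agent.Results.MP_aa7c57_an.NotFive

open Finset

lemma per_bound (k : ℕ) (hk : 1 ≤ k) (f : ℕ → ℝ) (hf : ∀ n, 0 < f n)
    (hper : ∀ n, f (n + k) = f n) : ∃ G, 0 < G ∧ ∀ n, f n ≤ G := by
  refine ⟨∑ r ∈ range k, f r, sum_pos (fun r _ => hf r) ⟨0, mem_range.2 hk⟩, fun n => ?_⟩
  have hp : Function.Periodic f k := hper
  rw [← hp.map_mod_nat n]
  exact single_le_sum (fun r _ => (hf r).le) (mem_range.2 (Nat.mod_lt n hk))

lemma prod_shift (k d : ℕ) (f : ℕ → ℝ) (hper : ∀ n, f (n + k) = f n) (i m : ℕ) :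
    ∏ j ∈ range k, f (i + m * k + d * j) = ∏ j ∈ range k, f (i + d * j) := by
  have hp : Function.Periodic f k := hper
  refine prod_congr rfl fun j _ => ?_
  have := hp.nat_mul m (i + d * j)
  rw [← this]; congr 1; push_cast; ring

lemma prod_coprime (k : ℕ) (hk : 1 ≤ k) (h3 : ¬ 5 ∣ k) (f : ℕ → ℝ) (hper : ∀ n, f (n + k) = f n)
    (i : ℕ) : ∏ j ∈ range k, f (i + 5 * j) = ∏ j ∈ range k, f j := by
  have hp : Function.Periodic f k := hper
  have hc : Nat.Coprime k 5 := ((Nat.Prime.coprime_iff_not_dvd Nat.prime_five).2 h3).symm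
  have hm : Set.MapsTo (fun j => (i + 5 * j) % k) (range k : Set ℕ) (range k : Set ℕ) := by
    intro j _; simpa using Nat.mod_lt _ hk
  have hi : Set.InjOn (fun j => (i + 5 * j) % k) (range k : Set ℕ) := by
    intro x hx z hz h
    have h1 : i + 5 * x ≡ i + 5 * z [MOD k] := h
    have h2 : x ≡ z [MOD k] := Nat.ModEq.cancel_left_of_coprime hc (Nat.ModEq.add_left_cancel' i h1)
    exact Nat.ModEq.eq_of_lt_of_lt h2 (by simpa using hx) (by simpa using hz)
  exact prod_nbij (fun j => (i + 5 * j) % k) (fun j hj => hm hj) hi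
    (surjOn_of_injOn_of_card_le _ hm hi le_rfl) (fun j _ => (hp.map_mod_nat _).symm)


lemma chain_bound (k d : ℕ) (hk : 1 ≤ k) (hd : 1 ≤ d) (w c : ℕ → ℝ) (K : ℝ) (hw : ∀ n, 0 < w n)
    (hc0 : ∀ n, 0 < c n) (hcper : ∀ n, c (n + k) = c n) (hK : 0 ≤ K)
    (hstep : ∀ n, w (n + d) ≤ w n / c n + K)
    (hP : ∀ i, 1 < ∏ j ∈ range k, c (i + d * j)) : ∃ M, 0 < M ∧ ∀ n, w n ≤ M := by
  obtain ⟨G, hG0, hG⟩ := per_bound k hk (fun n => 1 / c n) (fun n => one_div_pos.2 (hc0 n))
    (fun n => by simp only [hcper])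
  have step : ∀ s, ∃ L, 0 ≤ L ∧ ∀ r, w (r + d * s)
      ≤ w r / (∏ j ∈ range s, c (r + d * j)) + L := by
    intro s
    induction s with
    | zero => exact ⟨0, le_rfl, fun r => by simp⟩
    | succ s ih =>
      obtain ⟨L, hL, ih⟩ := ih
      refine ⟨L * G + K, by positivity, fun r => ?_⟩
      have h := hstep (r + d * s)
      have ih := ih r
      rw [prod_range_succ, show r + d * (s + 1) = r + d * s + d by ring, ← div_div]
      have h2 := div_le_div_of_nonneg_right ih (hc0 (r + d * s)).le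
      rw [add_div] at h2
      have h3 : L / c (r + d * s) ≤ L * G := by
        rw [div_eq_mul_one_div]; exact mul_le_mul_of_nonneg_left (hG _) hL
      linarith
  obtain ⟨L, hL, hs⟩ := step k
  set Pi : ℕ → ℝ := fun i => ∏ j ∈ range k, c (i + d * j) with hPi
  set D : ℕ → ℝ := fun r => w r + L * Pi r / (Pi r - 1) with hD
  have hd0 : ∀ r, 0 ≤ L * Pi r / (Pi r - 1) := fun r => by
    have : 1 < Pi r := hP _
    exact div_nonneg (mul_nonneg hL (by linarith)) (by linarith)
  have chain : ∀ r m, w (r + d * m * k) ≤ D r := by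
    intro r m
    induction m with
    | zero => simp only [hD]; simpa using hd0 r
    | succ m ih =>
      have h := hs (r + d * m * k)
      have e1 : ∏ j ∈ range k, c (r + d * m * k + d * j) = Pi r := prod_shift k d c hcper r (d * m)
      rw [e1, show r + d * m * k + d * k = r + d * (m + 1) * k by ring] at h
      have h1 : 1 < Pi r := hP _
      have h2 := div_le_div_of_nonneg_right ih (by linarith : 0 ≤ Pi r)
      have h3 : D r / Pi r + L ≤ D r := by
        have h4 : w r / Pi r ≤ w r := div_le_self (hw _).le h1.le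
        have h5 : L * Pi r / (Pi r - 1) / Pi r + L = L * Pi r / (Pi r - 1) := by
          have : Pi r - 1 ≠ 0 := by linarith
          have : Pi r ≠ 0 := by linarith
          field_simp; ring
        simp only [hD]; rw [add_div]; linarith
      linarith
  have hdk : 0 < d * k := Nat.mul_pos hd hk
  refine ⟨∑ r ∈ range (d * k), D r, sum_pos (fun r _ => add_pos_of_pos_of_nonneg (hw r) (hd0 r))
    ⟨0, mem_range.2 hdk⟩, fun n => ?_⟩
  have h := chain (n % (d * k)) (n / (d * k))
  have e : n % (d * k) + d * (n / (d * k)) * k = n := by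
    have := Nat.mod_add_div n (d * k)
    rw [show d * (n / (d * k)) * k = d * k * (n / (d * k)) by ring]; exact this
  rw [e] at h
  exact h.trans (single_le_sum (f := D) (fun r _ => add_nonneg (hw _).le (hd0 r))
    (mem_range.2 (Nat.mod_lt _ hdk)))

lemma pstep (z0 z a b e f g a' b' C0 C1 C2 C3 C4 C5 G β γ : ℝ)
    (hz0 : 0 < z0) (hz : 0 < z) (ha : 0 < a) (hb : 0 < b) (he : 0 < e) (hf : 0 < f) (hg : 0 < g)
    (ha' : 0 < a') (hb' : 0 < b') (c0 : 0 < C0) (c1 : 0 < C1) (c2 : 0 < C2) (c3 : 0 < C3)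
    (c4 : 0 < C4) (c5 : 0 < C5) (hγ : 0 < γ) (hβ : 0 < β)
    (g3 : C3 ≤ G) (b0 : 1 ≤ β * C0) (b5 : 1 ≤ β * C5) (γ1 : γ ≤ C4 * C1) (γ2 : γ * (C5 * C2) ≤ 1)
    (e0 : b * (C0 * z + z0) = 1) (e1 : e * (C1 * a + z) = 1) (e2 : f * (C2 * b + a) = 1)
    (e3 : g * (C3 * e + b) = 1) (e4 : a' * (C4 * f + e) = 1) (e5 : b' * (C5 * g + f) = 1) :
    a' * b' ≤ a * b / ((1 + γ) * C5 / C1) + (G + β) * β := by
  set U := C1 * a + z with hU
  set W := C3 * e + b with hW
  set s := C2 * b + a with hs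
  have hU0 : 0 < U := by positivity
  have hW0 : 0 < W := by positivity
  have h1 : γ * C5 * s ≤ C4 * C5 * U + W := by
    have t1 : γ * (C5 * a) ≤ C4 * C1 * (C5 * a) := mul_le_mul_of_nonneg_right γ1 (by positivity)
    have t2 : γ * (C5 * C2) * b ≤ 1 * b := mul_le_mul_of_nonneg_right γ2 hb.le
    have t3 : 0 < C4 * C5 * z := by positivity
    have t4 : 0 < C3 * e := by positivity
    rw [hU, hW, hs]; nlinarith
  have h2 : γ * C5 * (e * g) ≤ f * (C4 * C5 * g + e) := by
    have := mul_le_mul_of_nonneg_left h1 (by positivity : 0 ≤ e * f * g)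
    have q1 : e * f * g * (γ * C5 * s) = γ * C5 * (e * g) := by linear_combination γ * C5 * (e * g) * e2
    have q2 : e * f * g * (C4 * C5 * U + W) = f * (C4 * C5 * g + e) := by
      linear_combination f * g * C4 * C5 * e1 + e * f * e3
    linarith
  have h3 : (1 + γ) * C5 * (e * g) ≤ (C4 * f + e) * (C5 * g + f) := by
    have : 0 < C4 * f * f := by positivity
    nlinarith
  have h4 : a' * b' * ((1 + γ) * C5) ≤ U * W := by
    have t := mul_le_mul_of_nonneg_left h3 (by positivity : 0 ≤ a' * b' * (U * W))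
    have q1 : a' * b' * (U * W) * ((1 + γ) * C5 * (e * g)) = a' * b' * ((1 + γ) * C5) := by
      have : (e * U) * (g * W) = 1 := by rw [e1, e3, one_mul]
      linear_combination a' * b' * ((1 + γ) * C5) * this
    have q2 : a' * b' * (U * W) * ((C4 * f + e) * (C5 * g + f)) = U * W := by
      have : (a' * (C4 * f + e)) * (b' * (C5 * g + f)) = 1 := by rw [e4, e5, one_mul]
      linear_combination U * W * this
    linarith
  have h5 : z * b ≤ β := by
    have : b * (C0 * z) ≤ 1 := by nlinarith [mul_pos hb hz0]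
    nlinarith [mul_le_mul_of_nonneg_left b0 (mul_pos hz hb).le, mul_le_mul_of_nonneg_left this hβ.le]
  have h6 : U * W ≤ C1 * (a * b) + (G + β) := by
    have : U * W = C3 + C1 * (a * b) + z * b := by
      rw [hW]; linear_combination C3 * e1 + b * hU
    linarith
  have hGβ : 0 < G + β := by linarith
  have h7 : G + β ≤ (G + β) * β * ((1 + γ) * C5) := by
    have : 1 ≤ β * ((1 + γ) * C5) := by nlinarith [mul_pos hβ (mul_pos hγ c5)]
    nlinarith [mul_le_mul_of_nonneg_left this hGβ.le]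
  have hpos : 0 < (1 + γ) * C5 := by positivity
  have q : a * b / ((1 + γ) * C5 / C1) = C1 * (a * b) / ((1 + γ) * C5) := by field_simp
  rw [q, div_add' _ _ _ hpos.ne', le_div_iff₀ hpos]
  linarith

lemma ystep (z0 z a b e f a' C0 C1 C2 C4 G β P : ℝ)
    (hz0 : 0 < z0) (hz : 0 < z) (ha : 0 < a) (hb : 0 < b) (he : 0 < e) (hf : 0 < f)
    (ha' : 0 < a') (c0 : 0 < C0) (c1 : 0 < C1) (c2 : 0 < C2) (c4 : 0 < C4) (hβ : 0 < β)
    (hP : 0 < P) (g1 : C1 ≤ G) (g2 : C2 ≤ G) (b0 : 1 ≤ β * C0) (b1 : 1 ≤ β * C1) (b4 : 1 ≤ β * C4)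
    (p1 : z * a ≤ P) (p2 : a * b ≤ P)
    (e0 : b * (C0 * z + z0) = 1) (e1 : e * (C1 * a + z) = 1) (e2 : f * (C2 * b + a) = 1)
    (e4 : a' * (C4 * f + e) = 1) :
    a' ≤ a / (C4 + 1 / C1) + ((β * P + G * P) * G + (G + 1) + (G * β + 1) * β) := by
  have hG : 0 < G := by linarith
  have hc : 0 < C4 + 1 / C1 := by positivity
  have k1 : 0 < β * P + G * P := by positivity
  have k2 : 0 < (G * β + 1) * β := by positivity
  have k3 : 0 < (β * P + G * P) * G := by positivity
  by_cases h1 : 1 ≤ a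
  · have s1 : z ≤ P := by nlinarith
    have s2 : b ≤ P := by nlinarith
    set T := a + (β * P + G * P) with hT
    have t3 : 1 / C1 ≤ e * T := by
      rw [div_le_iff₀ c1]
      have : z ≤ C1 * (β * P + G * P) := by
        nlinarith [mul_le_mul_of_nonneg_right b1 hP.le, mul_pos c1 (mul_pos hG hP)]
      nlinarith [mul_le_mul_of_nonneg_left this he.le]
    have t4 : 1 ≤ f * T := by
      have : C2 * b ≤ β * P + G * P := by
        nlinarith [mul_le_mul g2 s2 hb.le hG.le, mul_pos hβ hP]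
      nlinarith [mul_le_mul_of_nonneg_left this hf.le]
    have t5 : a' * (C4 + 1 / C1) ≤ T := by
      have : C4 + 1 / C1 ≤ (C4 * f + e) * T := by
        nlinarith [mul_le_mul_of_nonneg_left t4 c4.le]
      calc _ ≤ a' * ((C4 * f + e) * T) := mul_le_mul_of_nonneg_left this ha'.le
        _ = T := by rw [← mul_assoc, e4, one_mul]
    have t6 : (β * P + G * P) / (C4 + 1 / C1) ≤ (β * P + G * P) * G := by
      rw [div_le_iff₀ hc]
      have h1 : 1 ≤ G * (1 / C1) := by rw [mul_one_div, one_le_div c1]; exact g1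
      nlinarith [mul_le_mul_of_nonneg_left h1 k1.le, mul_pos k1 (mul_pos hG c4)]
    have t7 : a' ≤ T / (C4 + 1 / C1) := (le_div_iff₀ hc).2 t5
    rw [hT, add_div] at t7
    linarith
  · push Not at h1
    have q0 : 0 ≤ a / (C4 + 1 / C1) := by positivity
    by_cases h3 : z ≤ 1
    · have u1 : C1 * a + z ≤ G + 1 := by nlinarith
      have u2 : 1 ≤ e * (G + 1) := by nlinarith [mul_le_mul_of_nonneg_left u1 he.le]
      have u3 : a' * e ≤ 1 := by nlinarith [mul_pos ha' (mul_pos c4 hf)]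
      have : a' ≤ G + 1 := by
        nlinarith [mul_le_mul_of_nonneg_left u2 ha'.le,
          mul_le_mul_of_nonneg_right u3 (by linarith : 0 ≤ G + 1)]
      linarith
    · push Not at h3
      have v1 : b * C0 ≤ 1 := by
        nlinarith [mul_pos hb hz0, mul_le_mul_of_nonneg_left h3.le (mul_pos hb c0).le]
      have v2 : b ≤ β := by
        nlinarith [mul_le_mul_of_nonneg_left b0 hb.le, mul_le_mul_of_nonneg_left v1 hβ.le]
      have u1 : C2 * b + a ≤ G * β + 1 := by nlinarith [mul_le_mul g2 v2 hb.le hG.le]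
      have u2 : 1 ≤ f * (G * β + 1) := by nlinarith [mul_le_mul_of_nonneg_left u1 hf.le]
      have u3 : a' * (C4 * f) ≤ 1 := by nlinarith [mul_pos ha' he]
      have u4 : 1 ≤ (C4 * f) * ((G * β + 1) * β) := by
        nlinarith [mul_le_mul b4 u2 zero_le_one (mul_pos hβ c4).le]
      have : a' ≤ (G * β + 1) * β := by
        nlinarith [mul_le_mul_of_nonneg_left u4 ha'.le, mul_le_mul_of_nonneg_right u3 k2.le]
      linarith

/-- Positive coefficients with a period `k` not divisible by `5`.  Here `y n` stands for `x_{n-2}`,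
so that `x_{n+1} = 1 / (C_n x_{n-1} + x_{n-2})` reads `y (n+3) = 1 / (C n * y (n+1) + y n)`. -/
theorem result (k : ℕ) (hk : 1 ≤ k) (h5 : ¬ 5 ∣ k) (C : ℕ → ℝ) (hC : ∀ n, 0 < C n)
    (hper : ∀ n, C (n + k) = C n) (y : ℕ → ℝ) (h0 : 0 < y 0) (h1 : 0 < y 1) (h2 : 0 < y 2)
    (hy : ∀ n, y (n + 3) = 1 / (C n * y (n + 1) + y n)) : BddAbove (Set.range y) := by
  have hp : ∀ n, 0 < y n := by
    intro n
    induction n using Nat.strong_induction_on with
    | _ n ih =>
      rcases n with _ | _ | _ | n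
      · exact h0
      · exact h1
      · exact h2
      · have := ih n (by omega); have := ih (n + 1) (by omega); have := hC n
        rw [hy]; positivity
  have e : ∀ n, y (n + 3) * (C n * y (n + 1) + y n) = 1 := by
    intro n; have := hp n; have := hp (n + 1); have := hC n; rw [hy]; field_simp
  obtain ⟨G, hG0, hG⟩ := per_bound k hk C hC hper
  obtain ⟨β, hβ, hb⟩ := per_bound k hk (fun n => 1 / C n) (fun n => one_div_pos.2 (hC n))
    (fun n => by simp only [hper])
  have hb' : ∀ n, 1 ≤ β * C n := fun n => (div_le_iff₀ (hC n)).1 (hb n)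
  set γ := 1 / (β ^ 2 + G ^ 2) with hγ
  have hγ0 : 0 < γ := by positivity
  have hγ1 : γ * (β ^ 2 + G ^ 2) = 1 := by rw [hγ]; field_simp
  have hQ : 0 < ∏ j ∈ range k, C j := prod_pos fun j _ => hC _
  have per' : ∀ t n, C (n + k + t) = C (n + t) := fun t n => by
    rw [show n + k + t = n + t + k by ring, hper]
  have pc : ∀ i t, ∏ j ∈ range k, C (i + 5 * j + t) = ∏ j ∈ range k, C j := fun i t => by
    rw [← prod_coprime k hk h5 C hper (i + t)]
    exact prod_congr rfl fun j _ => by congr 1; ring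
  obtain ⟨M, hM0, hM⟩ := chain_bound k 5 hk (by norm_num) (fun n => y (n + 2) * y (n + 3))
    (fun n => (1 + γ) * C (n + 5) / C (n + 1)) ((G + β) * β)
    (fun n => mul_pos (hp _) (hp _))
    (fun n => by have := hC (n + 5); have := hC (n + 1); positivity)
    (fun n => by simp only [per']) (by positivity)
    (fun n => by
      refine pstep (y n) (y (n + 1)) (y (n + 2)) (y (n + 3)) (y (n + 4)) (y (n + 5)) (y (n + 6))
        (y (n + 7)) (y (n + 8)) (C n) (C (n + 1)) (C (n + 2)) (C (n + 3)) (C (n + 4)) (C (n + 5))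
        G β γ (hp _) (hp _) (hp _) (hp _) (hp _) (hp _) (hp _) (hp _) (hp _) (hC _) (hC _) (hC _)
        (hC _) (hC _) (hC _) hγ0 hβ (hG _) (hb' _) (hb' _) ?_ ?_ (e n) (e (n + 1)) (e (n + 2))
        (e (n + 3)) (e (n + 4)) (e (n + 5))
      · have t := mul_le_mul (hb' (n + 4)) (hb' (n + 1)) zero_le_one (mul_pos hβ (hC _)).le
        have t2 := mul_pos (hC (n + 4)) (hC (n + 1))
        nlinarith [mul_le_mul_of_nonneg_left t hγ0.le, mul_pos (mul_pos hγ0 (pow_pos hG0 2)) t2]
      · have t := mul_le_mul (hG (n + 5)) (hG (n + 2)) (hC _).le hG0.le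
        nlinarith [mul_le_mul_of_nonneg_left t hγ0.le, mul_pos hγ0 (pow_pos hβ 2)])
    (fun i => by
      rw [prod_div_distrib, prod_mul_distrib, pc, pc, prod_const, card_range, mul_div_assoc,
        div_self hQ.ne', mul_one]
      exact one_lt_pow₀ (by linarith) (by omega))
  have hPm : ∀ n, y (n + 1) * y (n + 2) ≤ M + y 1 * y 2 := by
    intro n
    have := mul_pos h1 h2
    rcases n with _ | n
    · simp only [zero_add]; linarith
    · have := hM n; linarith
  have hP0 : 0 < M + y 1 * y 2 := by positivity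
  obtain ⟨N, hN0, hN⟩ := chain_bound k 5 hk (by norm_num) (fun n => y (n + 2))
    (fun n => C (n + 4) + 1 / C (n + 1))
    ((β * (M + y 1 * y 2) + G * (M + y 1 * y 2)) * G + (G + 1) + (G * β + 1) * β)
    (fun n => hp _) (fun n => by have := hC (n + 4); have := hC (n + 1); positivity)
    (fun n => by simp only [per']) (by positivity)
    (fun n => ystep (y n) (y (n + 1)) (y (n + 2)) (y (n + 3)) (y (n + 4)) (y (n + 5))
        (y (n + 7)) (C n) (C (n + 1)) (C (n + 2)) (C (n + 4)) G β _ (hp _) (hp _) (hp _) (hp _)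
        (hp _) (hp _) (hp _) (hC _) (hC _) (hC _) (hC _) hβ hP0 (hG _) (hG _) (hb' _) (hb' _)
        (hb' _) (hPm n) (hPm (n + 1)) (e n) (e (n + 1)) (e (n + 2)) (e (n + 4)))
    (fun i => by
      have hP : 0 < ∏ j ∈ range k, (C (i + 5 * j + 4) + 1 / C (i + 5 * j + 1)) :=
        prod_pos fun j _ => by have := hC (i + 5 * j + 4); have := hC (i + 5 * j + 1); positivity
      have h1 : ∏ j ∈ range k, (4 * C (i + 5 * j + 4)) ≤ ∏ j ∈ range k,
          ((C (i + 5 * j + 4) + 1 / C (i + 5 * j + 1)) ^ 2 * C (i + 5 * j + 1)) := by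
        refine prod_le_prod (fun j _ => by have := hC (i + 5 * j + 4); positivity) fun j _ => ?_
        have h := hC (i + 5 * j + 1)
        have e : 1 / C (i + 5 * j + 1) * C (i + 5 * j + 1) = 1 := by field_simp
        have e2 := mul_nonneg (sq_nonneg (C (i + 5 * j + 4) - 1 / C (i + 5 * j + 1))) h.le
        generalize 1 / C (i + 5 * j + 1) = u at e e2 ⊢
        have e3 : C (i + 5 * j + 4) * (u * C (i + 5 * j + 1)) = C (i + 5 * j + 4) := by
          rw [e, mul_one]
        nlinarith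
      rw [prod_mul_distrib, prod_mul_distrib, pc, pc, prod_pow, prod_const, card_range] at h1
      have h2 := le_of_mul_le_mul_right h1 hQ
      have h4 : (1:ℝ) < 4 ^ k := one_lt_pow₀ (by norm_num) (by omega)
      nlinarith)
  refine ⟨y 0 + y 1 + N, ?_⟩
  rintro _ ⟨n, rfl⟩
  rcases n with _ | _ | n
  · linarith
  · simp only [zero_add]; linarith
  · have := hN n; linarith

end Pool.Agent.Results.MP_aa7c57_an.NotFive
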